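import Pool.Agent.Y5.EM.PH3a

/-! Amplitudes and fields: solutions. -/

open Set Filter Topology
open scoped ComplexConjugate

set_option autoImplicit false

namespace Pool.Agent.Y5.EM.PH3

open Pool.Agent.Y6.M

lemma fld_field {h : Md → C3} (hF : Frame h) (h1 : S_PH1) {z : Md → ℂ}
    (hr : ∀ i, z (br i) = conj (z i)) (hreg : ∀ q : ℕ, ∃ M, ∀ i, NM i ^ q * ‖z i‖ ≤ M) :
    IsField (fld h z) := by
  obtain ⟨-, -, -, p4, p5, -⟩ := h1 h hF
  refine ⟨fld_zero z, p4 z hr, p5 z, fun q => ?_⟩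
  obtain ⟨M, hM⟩ := hreg q
  exact ⟨2 * M, fun k j => fld_bd hF hM k j⟩

/-- from amplitudes to fields -/
lemma sol_of {h : Md → C3} (hF : Frame h) (h1 : S_PH1) (h2 : S_PH2) {S : ℕ → ℝ} {T : ℝ}
    {z : Md → ℝ → ℂ} (hz : KSol S lvM br σM (cK h) NM T z) :
    IsSol (mm S) (nn S) T (fun t => fld h (fun i => z i t)) := by
  have hf : ∀ t ∈ Ico 0 T, IsField (fld h (fun i => z i t)) := by
    intro t ht
    refine fld_field hF h1 (fun i => hz.real i t ht) fun q => ?_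
    obtain ⟨M, hM⟩ := hz.reg q t ht.2
    exact ⟨M, fun i => hM t ⟨ht.1, le_rfl⟩ i⟩
  refine ⟨hf, ?_, ?_⟩
  · intro q T' hT'
    obtain ⟨M, hM⟩ := hz.reg q T' hT'
    exact ⟨2 * M, fun t ht k j => fld_bd hF (hM t ht) k j⟩
  · intro k hk j t ht
    have e1 := rhs_eq hF h1 h2 S (hf t ht) k hk j
    have e2 : amp h (fld h (fun i => z i t)) = fun i => z i t := by
      funext i
      exact (h1 h hF).1 _ i
    rw [e2] at e1
    rw [e1]
    have e3 : (fun s => fld h (fun i => z i s) k j) = fun s => z (⟨k, hk⟩, true) s *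
        h (⟨k, hk⟩, true) j + z (⟨k, hk⟩, false) s * h (⟨k, hk⟩, false) j := by
      funext s
      exact fld_ne _ hk j
    rw [e3]
    exact ((hz.deriv (⟨k, hk⟩, true) t ht).mul_const _).add
      ((hz.deriv (⟨k, hk⟩, false) t ht).mul_const _)

/-- from fields to amplitudes -/
lemma ksol_of {h : Md → C3} (hF : Frame h) (h1 : S_PH1) (h2 : S_PH2) {S : ℕ → ℝ} {T : ℝ}
    {W : ℝ → Coef} (hW : IsSol (mm S) (nn S) T W) :
    KSol S lvM br σM (cK h) NM T (fun i t => amp h (W t) i) := by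
  obtain ⟨p1, p2, p3, p4, p5, p6, p7, p8, p9, p10⟩ := h1 h hF
  refine ⟨?_, ?_, ?_⟩
  · intro i t ht
    exact p3 (W t) (hW.field t ht).real i
  · intro i t ht
    have e1 := rhs_amp hF h1 h2 S (hW.field t ht) i
    rw [← e1]
    have e2 : (fun s => amp h (W s) i) = fun s => W s i.1.1 0 * cj (h i) 0 +
        W s i.1.1 1 * cj (h i) 1 + W s i.1.1 2 * cj (h i) 2 := by
      funext s
      unfold amp
      rw [dt_eq]
    rw [e2, dt_eq]
    have d := fun j => (hW.eqn i.1.1 i.1.2 j t ht).mul_const (cj (h i) j)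
    exact ((d 0).add (d 1)).add (d 2)
  · intro q T' hT'
    obtain ⟨M, hM⟩ := hW.reg (2 * q) T' hT'
    exact ⟨3 * M, fun t ht i => amp_bdq hF fun j => hM t ht _ j⟩

/-! ### sums over the frequencies -/

lemma sum_md {F : Z3 → ℝ} {f : Md → ℝ} (h0 : F 0 = 0)
    (hF : ∀ (k : Z3) (hk : k ≠ 0), F k = f (⟨k, hk⟩, true) + f (⟨k, hk⟩, false))
    (hs : Summable f) : HasSum F (∑' i, f i) := by
  have e1 : HasSum (fun k : {k : Z3 // k ≠ 0} => ∑' b, f (k, b)) (∑' i, f i) := by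
    have := hs.prod_factor
    exact (hs.hasSum.prod_fiberwise fun k => (this k).hasSum)
  have e2 : (fun k : {k : Z3 // k ≠ 0} => ∑' b, f (k, b)) = F ∘ ((↑) : {k : Z3 // k ≠ 0} → Z3) := by
    funext k
    rw [tsum_fintype, Fintype.sum_bool, Function.comp_apply, hF k.1 k.2]
  rw [e2] at e1
  refine (Function.Injective.hasSum_iff Subtype.val_injective ?_).1 e1
  intro k hk
  rw [Subtype.range_coe_subtype] at hk
  have : k = 0 := by
    by_contra h
    exact hk h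
  rw [this, h0]

lemma energy_fld {h : Md → C3} (hF : Frame h) (h1 : S_PH1) {z : Md → ℂ}
    (hs : Summable fun i => ‖z i‖ ^ 2) : energy (fld h z) = ∑' i, ‖z i‖ ^ 2 := by
  obtain ⟨p1, p2, p3, p4, p5, p6, p7, p8, p9, p10⟩ := h1 h hF
  unfold energy
  refine (sum_md (F := fun k => ∑ j, ‖fld h z k j‖ ^ 2) (f := fun i => ‖z i‖ ^ 2) ?_ ?_ hs).tsum_eq
  · simp [fld_zero]
  · intro k hk
    have := p6 (fld h z) ⟨k, hk⟩ (p5 z k)
    simp only at this
    rw [this, p1, p1]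

lemma enstr_sum {h : Md → C3} (hF : Frame h) (h1 : S_PH1) {z : Md → ℂ}
    (hs : Summable fun i => NM i * ‖z i‖ ^ 2) : enstr (fld h z) = ∑' i, NM i * ‖z i‖ ^ 2 := by
  obtain ⟨p1, p2, p3, p4, p5, p6, p7, p8, p9, p10⟩ := h1 h hF
  unfold enstr
  refine (sum_md (F := fun k => (nsq k : ℝ) * ∑ j, ‖fld h z k j‖ ^ 2)
    (f := fun i => NM i * ‖z i‖ ^ 2) ?_ ?_ hs).tsum_eq
  · simp [fld_zero]
  · intro k hk
    have := p6 (fld h z) ⟨k, hk⟩ (p5 z k)
    simp only at this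
    rw [this, p1, p1]
    unfold NM
    ring

lemma enstr_summable {σ : Md → ℝ} {α : ℕ → ℝ} {c : Md → Md → Md → ℂ} {lv : Md → ℕ}
    (hW : Wt lv σ α c NM) {z : Md → ℂ} (hreg : ∀ q : ℕ, ∃ M, ∀ i, NM i ^ q * ‖z i‖ ≤ M) :
    Summable fun i => NM i * ‖z i‖ ^ 2 := by
  obtain ⟨p, hp⟩ := hW.summ
  obtain ⟨M0, hM0⟩ := hreg 0
  obtain ⟨M1, hM1⟩ := hreg (p + 1)
  refine Summable.of_nonneg_of_le (fun i => ?_) (fun i => ?_) (hp.mul_left (M0 * M1))
  · have := one_le_NM i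
    positivity
  · have h1 := one_le_NM i
    have h0 : 0 < NM i ^ p := by positivity
    have e0 := hM0 i
    have e1 := hM1 i
    rw [pow_zero, one_mul] at e0
    rw [← div_eq_mul_inv, le_div_iff₀ h0]
    have n0 : 0 ≤ ‖z i‖ := norm_nonneg _
    have m0 : 0 ≤ M0 := n0.trans e0
    calc NM i * ‖z i‖ ^ 2 * NM i ^ p = ‖z i‖ * (NM i ^ (p + 1) * ‖z i‖) := by ring
      _ ≤ M0 * M1 := by
        apply mul_le_mul e0 e1 _ m0
        positivity

theorem t_PH3 : S_PH3 := by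
  intro hLV h1 h2 hB hC
  obtain ⟨h, hF, hK, hCh, hM, hW, hD, hMD⟩ := hC
  obtain ⟨S, hS, T, z, hT, hT30, hz, hz0, huniq, hen, hblow⟩ := hB Md lvM br σM (cK h) αM (GM h)
    bM dM Xm Ym NM vM hK hCh hM hW hD hMD
  have hsol := sol_of hF h1 h2 hz
  refine ⟨mm S, nn S, T, fun t => fld h (fun i => z i t), mm_odd hLV S, nn_odd hLV S, hT, hT30,
    hsol, ?_, ?_, ?_⟩
  · intro T' W hT' hWs hW0
    have hk := ksol_of hF h1 h2 hWs
    have h0 : ∀ i, amp h (W 0) i = vM i := by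
      intro i
      rw [hW0]
      have := (h1 h hF).1 (fun i => z i 0) i
      rw [this]
      exact hz0 i
    obtain ⟨g1, g2⟩ := huniq T' _ hT' hk h0
    refine ⟨g1, fun t ht => ?_⟩
    have e1 := (h1 h hF).2.1 (W t) (hWs.field t ht).zero (hWs.field t ht).div
    rw [← e1]
    congr 1
    funext i
    exact g2 i t ht
  · intro t ht
    have e1 := hen t ht
    have e2 := hen 0 ⟨le_rfl, hT⟩
    rw [energy_fld hF h1 e1.1, energy_fld hF h1 e2.1, e1.2, e2.2]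
  · intro M
    obtain ⟨t, ht, i, hi, hlt⟩ := hblow (max M 1)
    refine ⟨t, ht, ?_⟩
    have hreg : ∀ q : ℕ, ∃ M, ∀ i, NM i ^ q * ‖z i t‖ ≤ M := by
      intro q
      obtain ⟨M, hM⟩ := hz.reg q t ht.2
      exact ⟨M, fun i => hM t ⟨ht.1, le_rfl⟩ i⟩
    have hs := enstr_summable hW hreg
    rw [enstr_sum hF h1 hs]
    have e1 : NM i * ‖z i t‖ ^ 2 ≤ ∑' i, NM i * ‖z i t‖ ^ 2 :=
      hs.le_tsum i fun j _ => by
        have := one_le_NM j
        positivity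
    refine lt_of_lt_of_le ?_ e1
    obtain ⟨-, -, -, -, -, -, h7, -⟩ := hLV
    have e2 := (h7 i hi).1
    have e3 : (αM (lvM i) * ‖z i t‖) ^ 2 ≤ NM i * ‖z i t‖ ^ 2 := by
      rw [mul_pow]
      gcongr
    have e4 : M ≤ max M 1 := le_max_left _ _
    have e5 : 1 ≤ max M 1 := le_max_right _ _
    nlinarith

end Pool.Agent.Y5.EM.PH3
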