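import Pool.Agent.Y6.M.Stm

/-! Amplitudes and fields: basic bounds. -/

open Set Filter Topology
open scoped ComplexConjugate

set_option autoImplicit false

namespace Pool.Agent.Y5.EM.PH3

open Pool.Agent.Y6.M

lemma dt_eq (a b : C3) : dt a b = a 0 * b 0 + a 1 * b 1 + a 2 * b 2 := by
  simp [dt, Fin.sum_univ_three]

lemma dt_sub_right (a b c : C3) : dt a (fun j => b j - c j) = dt a b - dt a c := by
  simp only [dt_eq]; ring

lemma dt_sub_left (a b c : C3) : dt (fun j => a j - b j) c = dt a c - dt b c := by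
  simp only [dt_eq]; ring

lemma h_sum {h : Md → C3} (hF : Frame h) (i : Md) : ∑ j, ‖h i j‖ ^ 2 = 1 := by
  have h1 := hF.unit i
  have h2 : dt (h i) (cj (h i)) = ((∑ j, ‖h i j‖ ^ 2 : ℝ) : ℂ) := by
    unfold dt cj
    push_cast
    refine Finset.sum_congr rfl fun j _ => ?_
    exact Complex.mul_conj' _
  rw [h2] at h1
  exact_mod_cast h1

lemma h_le {h : Md → C3} (hF : Frame h) (i : Md) (j : Fin 3) : ‖h i j‖ ≤ 1 := by
  have h1 := h_sum hF i
  have h2 : ‖h i j‖ ^ 2 ≤ 1 := by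
    rw [← h1]
    exact Finset.single_le_sum (f := fun j => ‖h i j‖ ^ 2) (fun _ _ => by positivity)
      (Finset.mem_univ j)
  have h3 : 0 ≤ ‖h i j‖ := norm_nonneg _
  nlinarith

lemma nsq_nonneg (k : Z3) : 0 ≤ nsq k := Finset.sum_nonneg fun _ _ => sq_nonneg _

lemma nsq_one {k : Z3} (hk : k ≠ 0) : 1 ≤ nsq k := by
  rcases (nsq_nonneg k).lt_or_eq with h1 | h1
  · omega
  · exfalso
    apply hk
    have h2 := (Finset.sum_eq_zero_iff_of_nonneg (s := Finset.univ)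
      (f := fun j => k j ^ 2) (fun _ _ => sq_nonneg _)).1 h1.symm
    funext j
    have := h2 j (Finset.mem_univ j)
    simpa using this

lemma len_sq (k : Z3) : len k ^ 2 = (nsq k : ℝ) := by
  unfold len
  rw [Real.sq_sqrt]
  exact_mod_cast nsq_nonneg k

lemma len_nonneg (k : Z3) : 0 ≤ len k := Real.sqrt_nonneg _

lemma one_le_len {k : Z3} (hk : k ≠ 0) : 1 ≤ len k := by
  have h1 := len_sq k
  have h2 : (1 : ℝ) ≤ (nsq k : ℝ) := by exact_mod_cast nsq_one hk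
  have h3 := len_nonneg k
  nlinarith

lemma NM_eq (i : Md) : NM i = len i.1.1 ^ 2 := by
  rw [len_sq]; rfl

lemma one_le_NM (i : Md) : 1 ≤ NM i := by
  unfold NM
  exact_mod_cast nsq_one i.1.2

lemma len_pow_le (i : Md) (q : ℕ) : len i.1.1 ^ q ≤ NM i ^ q := by
  rw [NM_eq, ← pow_mul]
  exact pow_le_pow_right₀ (one_le_len i.1.2) (by omega)

lemma fld_ne {h : Md → C3} (z : Md → ℂ) {k : Z3} (hk : k ≠ 0) (j : Fin 3) :
    fld h z k j = z (⟨k, hk⟩, true) * h (⟨k, hk⟩, true) j +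
      z (⟨k, hk⟩, false) * h (⟨k, hk⟩, false) j := by
  unfold fld
  rw [dif_neg hk]

lemma fld_zero {h : Md → C3} (z : Md → ℂ) : fld h z 0 = 0 := by
  funext j
  unfold fld
  rw [dif_pos rfl]
  rfl

lemma fld_bd {h : Md → C3} (hF : Frame h) {z : Md → ℂ} {q : ℕ} {M : ℝ}
    (hM : ∀ i, NM i ^ q * ‖z i‖ ≤ M) (k : Z3) (j : Fin 3) : len k ^ q * ‖fld h z k j‖ ≤ 2 * M := by
  have hM0 : 0 ≤ M := by
    have h1 := hM (⟨fun _ => 1, fun h => by simpa using congrFun h 0⟩, true)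
    refine le_trans ?_ h1
    have := one_le_NM (⟨fun _ => 1, fun h => by simpa using congrFun h 0⟩, true)
    positivity
  by_cases hk : k = 0
  · subst hk
    rw [fld_zero]
    simp
    positivity
  · rw [fld_ne z hk j]
    have h1 : ‖z (⟨k, hk⟩, true) * h (⟨k, hk⟩, true) j +
      z (⟨k, hk⟩, false) * h (⟨k, hk⟩, false) j‖ ≤ ‖z (⟨k, hk⟩, true)‖ + ‖z (⟨k, hk⟩, false)‖ := by
      refine (norm_add_le _ _).trans ?_
      rw [norm_mul, norm_mul]
      have h2 := h_le hF (⟨k, hk⟩, true) j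
      have h3 := h_le hF (⟨k, hk⟩, false) j
      gcongr
      · exact mul_le_of_le_one_right (norm_nonneg _) h2
      · exact mul_le_of_le_one_right (norm_nonneg _) h3
    have h2 := hM (⟨k, hk⟩, true)
    have h3 := hM (⟨k, hk⟩, false)
    have h4 := len_pow_le (⟨k, hk⟩, true) q
    have h5 := len_pow_le (⟨k, hk⟩, false) q
    simp only at h4 h5
    have h6 : 0 ≤ len k ^ q := pow_nonneg (len_nonneg k) q
    calc len k ^ q * _ ≤ len k ^ q * (‖z (⟨k, hk⟩, true)‖ + ‖z (⟨k, hk⟩, false)‖) := by gcongr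
      _ = len k ^ q * ‖z (⟨k, hk⟩, true)‖ + len k ^ q * ‖z (⟨k, hk⟩, false)‖ := by ring
      _ ≤ NM (⟨k, hk⟩, true) ^ q * ‖z (⟨k, hk⟩, true)‖ +
        NM (⟨k, hk⟩, false) ^ q * ‖z (⟨k, hk⟩, false)‖ := by gcongr
      _ ≤ 2 * M := by linarith

lemma amp_bd {h : Md → C3} (hF : Frame h) {V : Coef} {M : ℝ} {i : Md}
    (hM : ∀ j, len i.1.1 ^ (2 * 0) * ‖V i.1.1 j‖ ≤ M) : ‖amp h V i‖ ≤ 3 * M := by
  simp only [mul_zero, pow_zero, one_mul] at hM
  unfold amp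
  rw [dt_eq]
  have h1 : ∀ j, ‖V i.1.1 j * cj (h i) j‖ ≤ M := by
    intro j
    rw [norm_mul]
    have h2 : ‖cj (h i) j‖ ≤ 1 := by
      unfold cj
      rw [RCLike.norm_conj]
      exact h_le hF i j
    exact (mul_le_of_le_one_right (norm_nonneg _) h2).trans (hM j)
  refine (norm_add_le _ _).trans ?_
  have h3 := norm_add_le (V i.1.1 0 * cj (h i) 0) (V i.1.1 1 * cj (h i) 1)
  have := h1 0
  have := h1 1
  have := h1 2
  linarith

lemma amp_bdq {h : Md → C3} (hF : Frame h) {V : Coef} {q : ℕ} {M : ℝ} {i : Md}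
    (hM : ∀ j, len i.1.1 ^ (2 * q) * ‖V i.1.1 j‖ ≤ M) : NM i ^ q * ‖amp h V i‖ ≤ 3 * M := by
  have hl : 0 < len i.1.1 ^ (2 * q) := by
    have := one_le_len i.1.2
    positivity
  have h1 : ‖amp h V i‖ ≤ 3 * (M / len i.1.1 ^ (2 * q)) := by
    refine amp_bd hF (i := i) (M := M / len i.1.1 ^ (2 * q)) fun j => ?_
    simp only [mul_zero, pow_zero, one_mul]
    rw [le_div_iff₀ hl, mul_comm]
    exact hM j
  have h2 : NM i ^ q = len i.1.1 ^ (2 * q) := by rw [NM_eq, ← pow_mul]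
  rw [h2]
  calc _ ≤ len i.1.1 ^ (2 * q) * (3 * (M / len i.1.1 ^ (2 * q))) := by gcongr
    _ = 3 * M := by field_simp

/-! ### the multiplier -/

noncomputable def om (S : ℕ → ℝ) (i : Md) : ℝ := S (lvM i) * σM i

noncomputable def mm (S : ℕ → ℝ) (k : Z3) : ℝ :=
  open Classical in
  if hk : k = 0 then 0 else (om S (⟨k, hk⟩, true) + om S (⟨k, hk⟩, false)) / 2

noncomputable def nn (S : ℕ → ℝ) (k : Z3) : ℝ :=
  open Classical in
  if hk : k = 0 then 0 else (om S (⟨k, hk⟩, true) - om S (⟨k, hk⟩, false)) / 2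

lemma om_br (hLV : S_LV) (S : ℕ → ℝ) (i : Md) : om S (br i) = -om S i := by
  obtain ⟨-, -, -, -, h5, -⟩ := hLV
  unfold om
  rw [(h5 i).2.1, (h5 i).2.2]
  ring

lemma mm_odd (hLV : S_LV) (S : ℕ → ℝ) (k : Z3) : mm S (-k) = -mm S k := by
  by_cases hk : k = 0
  · subst hk; simp [mm]
  · have hk' : -k ≠ 0 := neg_ne_zero.2 hk
    unfold mm
    rw [dif_neg hk, dif_neg hk']
    have h1 := om_br hLV S (⟨k, hk⟩, true)
    have h2 := om_br hLV S (⟨k, hk⟩, false)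
    unfold br at h1 h2
    simp only at h1 h2
    rw [h1, h2]
    ring

lemma nn_odd (hLV : S_LV) (S : ℕ → ℝ) (k : Z3) : nn S (-k) = -nn S k := by
  by_cases hk : k = 0
  · subst hk; simp [nn]
  · have hk' : -k ≠ 0 := neg_ne_zero.2 hk
    unfold nn
    rw [dif_neg hk, dif_neg hk']
    have h1 := om_br hLV S (⟨k, hk⟩, true)
    have h2 := om_br hLV S (⟨k, hk⟩, false)
    unfold br at h1 h2
    simp only at h1 h2
    rw [h1, h2]
    ring

lemma mm_nn (S : ℕ → ℝ) (i : Md) : mm S i.1.1 + hs i.2 * nn S i.1.1 = om S i := by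
  obtain ⟨⟨k, hk⟩, s⟩ := i
  simp only
  unfold mm nn
  rw [dif_neg hk, dif_neg hk]
  cases s
  · simp only [hs, Bool.false_eq_true, if_false]; ring
  · simp only [hs, if_true]; ring

/-- the amplitude of the right hand side -/
lemma rhs_amp {h : Md → C3} (hF : Frame h) (h1 : S_PH1) (h2 : S_PH2) (S : ℕ → ℝ) {V : Coef}
    (hV : IsField V) (i : Md) :
    dt (fun j => Kop (mm S) (nn S) V i.1.1 j - leray i.1.1 (adv V i.1.1) j) (cj (h i)) =
      Kz S lvM σM (amp h V) i + qd (cK h) (amp h V) i := by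
  obtain ⟨-, -, -, -, -, -, p7, p8, -, -⟩ := h1 h hF
  rw [dt_sub_left, p7 _ _ _ _ (hV.div _), p8, ← h2 h hF V hV i, mm_nn]
  unfold Kz om
  ring

lemma rhs_div {h : Md → C3} (hF : Frame h) (h1 : S_PH1) (m n : Z3 → ℝ) {V : Coef}
    (hV : IsField V) (k : Z3) (hk : k ≠ 0) :
    dt (kc k) (fun j => Kop m n V k j - leray k (adv V k) j) = 0 := by
  obtain ⟨-, -, -, -, -, -, -, -, p9, p10⟩ := h1 h hF
  rw [dt_sub_right, p9 m n V k (hV.div k), p10 _ k hk, sub_zero]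

/-- the right hand side in terms of the amplitudes -/
lemma rhs_eq {h : Md → C3} (hF : Frame h) (h1 : S_PH1) (h2 : S_PH2) (S : ℕ → ℝ) {V : Coef}
    (hV : IsField V) (k : Z3) (hk : k ≠ 0) (j : Fin 3) :
    Kop (mm S) (nn S) V k j - leray k (adv V k) j =
      (Kz S lvM σM (amp h V) (⟨k, hk⟩, true) + qd (cK h) (amp h V) (⟨k, hk⟩, true)) *
        h (⟨k, hk⟩, true) j +
      (Kz S lvM σM (amp h V) (⟨k, hk⟩, false) + qd (cK h) (amp h V) (⟨k, hk⟩, false)) *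
        h (⟨k, hk⟩, false) j := by
  have e1 := hF.compl ⟨k, hk⟩ (fun j => Kop (mm S) (nn S) V k j - leray k (adv V k) j)
    (rhs_div hF h1 _ _ hV k hk) j
  have e2 := rhs_amp hF h1 h2 S hV (⟨k, hk⟩, true)
  have e3 := rhs_amp hF h1 h2 S hV (⟨k, hk⟩, false)
  simp only at e1 e2 e3
  rw [e1, e2, e3]

end Pool.Agent.Y5.EM.PH3
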